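import Pool.Agent.TH652.PN.Main

/-!
# Examples of tame families
-/

set_option autoImplicit false
set_option linter.unusedSectionVars false

namespace Pool.Agent.TH652.PN

universe u v

variable {L : Type u} [Field L] {m : ℕ} {ι : Type v} [Fintype ι] [DecidableEq ι]

theorem mem_gen (M : Fin m → Matrix ι ι L) (k : Fin m) : M k ∈ Gen M :=
  Algebra.subset_adjoin (Set.mem_range_self k)

/-- quasi-commuting matrices -/
theorem polynormal_of_quasi {M : Fin m → Matrix ι ι L}
    (h : ∀ i j, ∃ q : L, M i * M j = q • (M j * M i)) : Polynormal M := by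
  refine ⟨1, fun i _ j => ?_⟩
  obtain ⟨q, hq⟩ := h i j
  refine ⟨q • M j, (Gen M).smul_mem (mem_gen M j) q, ?_⟩
  rw [Equiv.Perm.one_apply, hq, smul_mul_assoc, sub_self]
  exact Submodule.zero_mem _

/-- nilpotent Lie systems: `[M_i, M_j]` is a combination of the `M_k` with `k < i` -/
theorem polynormal_of_lie {M : Fin m → Matrix ι ι L}
    (h : ∀ i j, M i * M j - M j * M i ∈ Submodule.span L (M '' {k | k < i})) :
    Polynormal M := by
  refine ⟨1, fun i _ j => ⟨M j, mem_gen M j, ?_⟩⟩
  rw [Equiv.Perm.one_apply]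
  refine (Submodule.span_le.2 ?_) (h i j)
  rintro _ ⟨k, hk, rfl⟩
  refine Submodule.subset_span ⟨k, hk, 1, (Gen M).one_mem, 1, (Gen M).one_mem, ?_⟩
  rw [one_mul, mul_one, Equiv.Perm.one_apply]

/-- polynormal families are tame -/
theorem Polynormal.tame {M : Fin m → Matrix ι ι L} (h : Polynormal M) {d : ℕ} (hd : 1 ≤ d) :
    Tame d M := by
  obtain ⟨σ, h1⟩ := h
  refine ⟨σ, m, 1, hd, h1, fun _ _ => 0, fun _ _ => (Gen M).zero_mem, fun _ _ k => ?_,
    fun x => ?_⟩
  · rw [zero_mul, mul_zero, sub_self]
    exact Submodule.zero_mem _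
  · simp only [smul_zero, Finset.sum_const_zero, zero_mul, add_zero, pow_one]
    refine Submodule.sum_mem _ fun k _ => Submodule.smul_mem _ _ ?_
    refine Submodule.subset_span ⟨σ.symm k, (σ.symm k).2, 1, (Gen M).one_mem, 1,
      (Gen M).one_mem, ?_⟩
    rw [one_mul, mul_one, Equiv.apply_symm_apply]

/-- the power of a sum, over words -/
theorem sum_pow_words (M : Fin m → Matrix ι ι L) (x : Fin m → L) (d : ℕ) :
    (∑ k, x k • M k) ^ d =
      ∑ w : Fin d → Fin m, (∏ l, x (w l)) • (List.ofFn fun l => M (w l)).prod := by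
  induction d with
  | zero => simp
  | succ d ih =>
    rw [pow_succ', ih, ← (Fin.consEquiv fun _ : Fin (d + 1) => Fin m).sum_comp,
      Fintype.sum_prod_type, Finset.sum_mul]
    refine Finset.sum_congr rfl fun k _ => ?_
    rw [Finset.mul_sum]
    refine Finset.sum_congr rfl fun w _ => ?_
    have hc : (Fin.consEquiv fun _ : Fin (d + 1) => Fin m) (k, w) =
        (Fin.cons k w : Fin (d + 1) → Fin m) := rfl
    rw [hc, Fin.prod_univ_succ, List.ofFn_succ, List.prod_cons]
    simp only [Fin.cons_zero, Fin.cons_succ]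
    rw [smul_mul_smul_comm]

/-- generalised Clifford systems of degree `d`: the symmetrised products of `d` of the matrices
commute with the matrices -/
theorem tame_of_clifford [CharZero L] {M : Fin m → Matrix ι ι L} {d : ℕ} (hd : 1 ≤ d)
    (h : ∀ (w : Fin d → Fin m) (k : Fin m),
      Commute (∑ π : Equiv.Perm (Fin d), (List.ofFn fun l => M (w (π l))).prod) (M k)) :
    Tame d M := by
  classical
  set S : (Fin d → Fin m) → Matrix ι ι L := fun w =>
    ∑ π : Equiv.Perm (Fin d), (List.ofFn fun l => M (w (π l))).prod with hS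
  set r : L := -((Nat.factorial d : ℕ) : L)⁻¹ with hr
  refine ⟨1, 0, d, le_rfl, fun i hi => absurd hi (Nat.not_lt_zero _),
    fun j w => if hj : j = d then r • S (fun l => w (Fin.cast hj.symm l)) else 0, ?_, ?_, ?_⟩
  · intro j w
    beta_reduce
    split_ifs with hj
    · refine (Gen M).smul_mem ?_ r
      refine Subalgebra.sum_mem _ fun π _ => ?_
      refine Subalgebra.list_prod_mem _ fun z hz => ?_
      obtain ⟨l, rfl⟩ := (List.mem_ofFn' _ _).1 hz
      exact mem_gen M _
    · exact (Gen M).zero_mem
  · intro j w k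
    beta_reduce
    split_ifs with hj
    · have h1 := (h (fun l => w (Fin.cast hj.symm l)) k)
      have h2 : (r • S (fun l => w (Fin.cast hj.symm l))) * M k -
          M k * (r • S (fun l => w (Fin.cast hj.symm l))) = 0 := by
        rw [smul_mul_assoc, mul_smul_comm, hS]
        simp only
        rw [h1.eq, sub_self]
      rw [h2]
      exact Submodule.zero_mem _
    · rw [zero_mul, mul_zero, sub_self]
      exact Submodule.zero_mem _
  · intro x
    have h0 : (∑ k, x k • M k) ^ d + ∑ j ∈ Finset.range d,
        (∑ w : Fin (j + 1) → Fin m, (∏ l, x (w l)) •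
          (if hj : j + 1 = d then r • S (fun l => w (Fin.cast hj.symm l)) else 0)) *
          (∑ k, x k • M k) ^ (d - (j + 1)) = 0 := by
      obtain ⟨d', rfl⟩ : ∃ d', d = d' + 1 := ⟨d - 1, by omega⟩
      have hz : ∀ j ∈ Finset.range d',
          (∑ w : Fin (j + 1) → Fin m, (∏ l, x (w l)) •
            (if hj : j + 1 = d' + 1 then r • S (fun l => w (Fin.cast hj.symm l)) else 0)) *
            (∑ k, x k • M k) ^ (d' + 1 - (j + 1)) = 0 := by
        intro j hj
        rw [Finset.mem_range] at hj
        have : ¬ (j + 1 = d' + 1) := by omega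
        simp only [dif_neg this, smul_zero, Finset.sum_const_zero, zero_mul]
      rw [Finset.sum_range_succ, Finset.sum_eq_zero hz, zero_add]
      · simp only [dif_pos, Nat.sub_self, pow_zero, mul_one, Fin.cast_refl, id]
        rw [sum_pow_words]
        have h1 : ∑ w : Fin (d' + 1) → Fin m, (∏ l, x (w l)) • (r • S w) =
            r • ∑ π : Equiv.Perm (Fin (d' + 1)), ∑ w : Fin (d' + 1) → Fin m,
              (∏ l, x (w l)) • (List.ofFn fun l => M (w l)).prod := by
          rw [Finset.smul_sum]
          simp only [hS, Finset.smul_sum]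
          rw [Finset.sum_comm]
          refine Finset.sum_congr rfl fun π _ => ?_
          rw [← (Equiv.arrowCongr π (Equiv.refl (Fin m))).sum_comp]
          refine Finset.sum_congr rfl fun w _ => ?_
          have h2 : ∏ l, x ((Equiv.arrowCongr π (Equiv.refl (Fin m))) w l) = ∏ l, x (w l) := by
            simp only [Equiv.arrowCongr_apply, Equiv.coe_refl, Function.comp_apply, id]
            exact π.symm.prod_comp fun l => x (w l)
          rw [h2, smul_comm]
          simp [Equiv.arrowCongr_apply]
        have h3 : (∑ w : Fin (d' + 1) → Fin m, (∏ l, x (w l)) • r • S fun l => w l) =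
          ∑ w : Fin (d' + 1) → Fin m, (∏ l, x (w l)) • (r • S w) := rfl
        rw [h3, h1, Finset.sum_const, Finset.card_univ, Fintype.card_perm, Fintype.card_fin,
          ← Nat.cast_smul_eq_nsmul L, smul_smul, hr, neg_mul, inv_mul_cancel₀
          (Nat.cast_ne_zero.2 (Nat.factorial_ne_zero _)), neg_one_smul, add_neg_cancel]
    rw [h0]
    exact Submodule.zero_mem _

end Pool.Agent.TH652.PN
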