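import Pool.Agent.TH652.PN.Simple
import Mathlib.Combinatorics.Nullstellensatz

/-!
# The generator and its points
-/

set_option autoImplicit false
set_option linter.unusedSectionVars false

open MvPolynomial

namespace Pool.Agent.TH652.PN

/-- `∏_{k ≠ j} (z - k)` -/
def node (m : ℕ) (z : ℤ) (j : Fin m) : ℤ := ∏ k ∈ Finset.univ.erase j, (z - (k : ℕ))

/-- The point with seeds `z_0, …, z_D` and `y_1, …, y_D`. -/
def point (m D : ℕ) (z : Fin (D + 1) → ℤ) (y : Fin D → ℤ) (j : Fin m) : ℤ :=
  node m (z 0) j + ∑ l : Fin D, y l * node m (z l.succ) j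

/-- The points whose seeds are `z_l ∈ {0, …, n (m - 1)}` and `y_l ∈ {0, …, n}`. -/
def points (n m D : ℕ) : Finset (Fin m → ℤ) :=
  (Finset.univ : Finset ((Fin (D + 1) → Fin (n * (m - 1) + 1)) × (Fin D → Fin (n + 1)))).image
    fun s => point m D (fun l => ((s.1 l : ℕ) : ℤ)) (fun l => ((s.2 l : ℕ) : ℤ))

theorem card_points (n m D : ℕ) :
    (points n m D).card ≤ (n * (m - 1) + 1) ^ (D + 1) * (n + 1) ^ D := by
  refine Finset.card_image_le.trans ?_
  rw [Finset.card_univ, Fintype.card_prod, Fintype.card_fun, Fintype.card_fun, Fintype.card_fin,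
    Fintype.card_fin, Fintype.card_fin, Fintype.card_fin]

section

variable {L : Type*} [Field L] {m D : ℕ}

/-- `∏_{k ≠ j} (P - k)` -/
noncomputable def nodeP {R : Type*} [CommRing R] (m : ℕ) (P : R) (j : Fin m) : R :=
  ∏ k ∈ Finset.univ.erase j, (P - ((k : ℕ) : R))

theorem nodeP_map {R S : Type*} [CommRing R] [CommRing S] (f : R →+* S) (P : R) (j : Fin m) :
    f (nodeP m P j) = nodeP m (f P) j := by
  simp [nodeP]

theorem nodeP_int (z : ℤ) (j : Fin m) : nodeP m (z : L) j = ((node m z j : ℤ) : L) := by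
  simp [nodeP, node]

theorem nodeP_self [CharZero L] (u j : Fin m) :
    nodeP m ((u : ℕ) : L) j = if j = u then nodeP m ((u : ℕ) : L) u else 0 := by
  classical
  split_ifs with h
  · rw [h]
  · refine Finset.prod_eq_zero (i := u) ?_ (sub_self _)
    exact Finset.mem_erase.2 ⟨fun h' => h h'.symm, Finset.mem_univ _⟩

theorem nodeP_ne [CharZero L] (u : Fin m) : nodeP m ((u : ℕ) : L) u ≠ 0 := by
  classical
  refine Finset.prod_ne_zero_iff.2 fun k hk => ?_
  rw [sub_ne_zero]
  intro h
  have h1 : (u : ℕ) = (k : ℕ) := by exact_mod_cast h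
  exact (Finset.mem_erase.1 hk).1 (Fin.ext h1.symm)

/-- The generator, as polynomials in the seeds. -/
noncomputable def gen (L : Type*) [Field L] (m D : ℕ) (j : Fin m) :
    MvPolynomial (Fin (D + 1) ⊕ Fin D) L :=
  nodeP m (X (Sum.inl 0)) j + ∑ l : Fin D, X (Sum.inr l) * nodeP m (X (Sum.inl l.succ)) j

/-- Composition with the generator. -/
noncomputable def comp (L : Type*) [Field L] (m D : ℕ) :
    MvPolynomial (Fin m) L →+* MvPolynomial (Fin (D + 1) ⊕ Fin D) L :=
  (bind₁ (gen L m D)).toRingHom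

theorem eval_comp (p : MvPolynomial (Fin m) L) (s : Fin (D + 1) ⊕ Fin D → L) :
    eval s (comp L m D p) = eval (fun j => nodeP m (s (Sum.inl 0)) j +
      ∑ l : Fin D, s (Sum.inr l) * nodeP m (s (Sum.inl l.succ)) j) p := by
  have h1 : eval s (comp L m D p) = eval (fun j => eval s (gen L m D j)) p := by
    rw [← MvPolynomial.coe_aeval_eq_eval s]
    change (aeval s) (bind₁ (gen L m D) p) = _
    rw [aeval_bind₁, ← MvPolynomial.coe_aeval_eq_eval]
    rfl
  rw [h1]
  congr 2
  funext j
  rw [gen, map_add, nodeP_map, eval_X, map_sum]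
  congr 1
  refine Finset.sum_congr rfl fun l _ => ?_
  rw [map_mul, nodeP_map, eval_X, eval_X]

theorem eval_smul_homog {p : MvPolynomial (Fin m) L} {N : ℕ} (hp : p.IsHomogeneous N) (r : L)
    (a : Fin m → L) : eval (fun k => r * a k) p = r ^ N * eval a p := by
  rw [eval_eq, eval_eq, Finset.mul_sum]
  refine Finset.sum_congr rfl fun ν hν => ?_
  have h1 := hp (mem_support_iff.1 hν)
  rw [← h1, Finsupp.weight_apply, Finsupp.sum]
  simp only [mul_pow, Finset.prod_mul_distrib, Finset.prod_pow_eq_pow_sum]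
  have h2 : ∑ i ∈ ν.support, ν i • (1 : Fin m → ℕ) i = ∑ i, ν i := by
    simp only [Pi.one_apply, smul_eq_mul, mul_one]
    exact Finset.sum_subset (Finset.subset_univ _) fun i _ hi => Finsupp.notMem_support_iff.1 hi
  have h3 : ∑ i ∈ ν.support, ν i = ∑ i, ν i :=
    Finset.sum_subset (Finset.subset_univ _) fun i _ hi => Finsupp.notMem_support_iff.1 hi
  rw [h2, h3]
  ring

/-- The generator hits. -/
theorem hits_comp [CharZero L] (m D : ℕ) : Hits (L := L) (m := m) (D + 1) (comp L m D) := by
  classical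
  rintro p N hp ⟨a, U, hU, hUa, ha⟩
  by_cases hex : ∃ u, a u ≠ 0
  swap
  · push Not at hex
    have ha0 : a = 0 := funext hex
    rw [ha0] at ha
    intro h0
    have h1 := congrArg (eval (0 : Fin (D + 1) ⊕ Fin D → L)) h0
    have h2 : p = C (coeff 0 p) := by
      have h3 : coeff 0 p ≠ 0 := by
        intro h3
        apply ha
        rw [eval_zero, constantCoeff_eq, h3]
      have h4 : N = 0 := by
        have := hp h3
        rw [map_zero] at this
        exact this.symm
      subst h4
      exact totalDegree_eq_zero_iff_eq_C.1 (Nat.le_zero.1 hp.totalDegree_le)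
    rw [eval_comp, map_zero, h2, eval_C] at h1
    rw [h2, eval_C] at ha
    exact ha h1
  obtain ⟨u, hu⟩ := hex
  set r : L := nodeP m ((u : ℕ) : L) u / a u with hr
  have hr0 : r ≠ 0 := div_ne_zero (nodeP_ne u) hu
  set S : Finset (Fin m) := U.erase u with hS
  have huU : u ∈ U := by
    by_contra h
    exact hu (hUa u h)
  have hcard : Fintype.card S ≤ Fintype.card (Fin D) := by
    rw [Fintype.card_coe, Fintype.card_fin, hS, Finset.card_erase_of_mem huU]
    omega
  obtain ⟨ι⟩ := Function.Embedding.nonempty_of_card_le hcard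
  set y : Fin D → L := Function.extend ι
    (fun s : S => r * a s / nodeP m (((s : Fin m) : ℕ) : L) s) (fun _ => 0) with hy
  set z : Fin D → Fin m := Function.extend ι (fun s : S => (s : Fin m)) (fun _ => u) with hz
  set sd : Fin (D + 1) ⊕ Fin D → L := Sum.elim
    (Fin.cons ((u : ℕ) : L) fun l => ((z l : ℕ) : L)) y with hsd
  have hpt : (fun j => nodeP m (sd (Sum.inl 0)) j +
      ∑ l : Fin D, sd (Sum.inr l) * nodeP m (sd (Sum.inl l.succ)) j) = fun j => r * a j := by
    funext j
    have h1 : ∑ l : Fin D, sd (Sum.inr l) * nodeP m (sd (Sum.inl l.succ)) j =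
        ∑ s : S, if j = (s : Fin m) then r * a s else 0 := by
      symm
      refine Fintype.sum_of_injective ι ι.injective _ _ ?_ ?_
      · intro l hl
        rw [hsd, Sum.elim_inr, hy, Function.extend_apply' _ _ _ (fun ⟨s, hs⟩ => hl ⟨s, hs⟩),
          zero_mul]
      · intro s
        rw [hsd, Sum.elim_inr, Sum.elim_inl, Fin.cons_succ, hy, hz, ι.injective.extend_apply,
          ι.injective.extend_apply, nodeP_self (s : Fin m) j]
        by_cases h : j = (s : Fin m)
        · rw [if_pos h, if_pos h, div_mul_cancel₀ _ (nodeP_ne _)]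
        · rw [if_neg h, if_neg h, mul_zero]
    rw [h1, hsd, Sum.elim_inl, Fin.cons_zero, nodeP_self]
    by_cases hju : j = u
    · rw [if_pos hju]
      have h2 : ∀ s : S, (if j = (s : Fin m) then r * a s else 0) = 0 := by
        intro s
        rw [if_neg]
        rw [hju]
        exact fun h => (Finset.mem_erase.1 s.2).1 h.symm
      rw [Finset.sum_congr rfl fun s _ => h2 s, Finset.sum_const_zero, add_zero, hju, hr,
        div_mul_cancel₀ _ hu]
    · rw [if_neg hju, zero_add]
      by_cases hjS : j ∈ S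
      · rw [Finset.sum_eq_single (⟨j, hjS⟩ : S)]
        · rw [if_pos rfl]
        · intro s _ hs
          rw [if_neg]
          intro h
          exact hs (Subtype.ext h.symm)
        · intro h
          exact absurd (Finset.mem_univ _) h
      · have h2 : a j = 0 := by
          refine hUa j fun h => hjS ?_
          exact Finset.mem_erase.2 ⟨hju, h⟩
        rw [h2, mul_zero]
        refine Finset.sum_eq_zero fun s _ => ?_
        rw [if_neg]
        intro h
        exact hjS (h ▸ s.2)
  intro h0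
  have h1 := congrArg (eval sd) h0
  rw [eval_comp, hpt, map_zero, eval_smul_homog hp] at h1
  exact mul_ne_zero (pow_ne_zero _ hr0) ha h1

theorem degreeOf_nodeP (i l : Fin (D + 1) ⊕ Fin D) (j : Fin m) :
    degreeOf i (nodeP m (X l : MvPolynomial (Fin (D + 1) ⊕ Fin D) L) j) ≤
      if i = l then m - 1 else 0 := by
  classical
  unfold nodeP
  refine (degreeOf_prod_le _ _ _).trans ?_
  have h1 : ∀ k ∈ Finset.univ.erase j, degreeOf i ((X l : MvPolynomial (Fin (D + 1) ⊕ Fin D) L) -
      (((k : Fin m) : ℕ) : MvPolynomial (Fin (D + 1) ⊕ Fin D) L)) ≤ if i = l then 1 else 0 := by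
    intro k _
    have h2 : ((X l : MvPolynomial (Fin (D + 1) ⊕ Fin D) L) -
        (((k : Fin m) : ℕ) : MvPolynomial (Fin (D + 1) ⊕ Fin D) L)) =
        X l + C (-((k : ℕ) : L)) := by
      rw [map_neg, map_natCast, sub_eq_add_neg]
    rw [h2]
    refine (degreeOf_add_le _ _ _).trans ?_
    rw [degreeOf_C, degreeOf_X]
    simp
  refine (Finset.sum_le_sum h1).trans ?_
  rw [Finset.sum_const, Finset.card_erase_of_mem (Finset.mem_univ _), Finset.card_univ,
    Fintype.card_fin]
  split_ifs <;> simp

theorem degreeOf_gen (i : Fin (D + 1) ⊕ Fin D) (j : Fin m) :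
    degreeOf i (gen L m D j) ≤ Sum.elim (fun _ => m - 1) (fun _ => 1) i := by
  classical
  unfold gen
  refine (degreeOf_add_le _ _ _).trans ?_
  refine max_le ?_ ?_
  · refine (degreeOf_nodeP _ _ _).trans ?_
    split_ifs with h
    · rw [h, Sum.elim_inl]
    · exact Nat.zero_le _
  · refine (degreeOf_sum_le _ _ _).trans ?_
    refine Finset.sup_le fun l _ => ?_
    refine (degreeOf_mul_le _ _ _).trans ?_
    have h1 := degreeOf_nodeP (L := L) (m := m) i (Sum.inl l.succ) j
    rw [degreeOf_X]
    rcases i with i | i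
    · rw [Sum.elim_inl, if_neg (by simp)]
      split_ifs at h1 <;> omega
    · rw [Sum.elim_inr]
      rw [if_neg (by simp)] at h1
      split_ifs <;> omega

theorem degreeOf_comp {p : MvPolynomial (Fin m) L} {N : ℕ} (hp : p.IsHomogeneous N)
    (i : Fin (D + 1) ⊕ Fin D) :
    degreeOf i (comp L m D p) ≤ N * Sum.elim (fun _ => m - 1) (fun _ => 1) i := by
  classical
  have h0 : comp L m D p = ∑ ν ∈ p.support, bind₁ (gen L m D) (monomial ν (coeff ν p)) := by
    change bind₁ (gen L m D) p = _
    conv_lhs => rw [p.as_sum]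
    rw [map_sum]
  rw [h0]
  refine (degreeOf_sum_le _ _ _).trans ?_
  refine Finset.sup_le fun ν hν => ?_
  rw [bind₁_monomial]
  refine (degreeOf_C_mul_le _ _ _).trans ?_
  refine (degreeOf_prod_le _ _ _).trans ?_
  have h1 := hp (mem_support_iff.1 hν)
  rw [← h1, Finsupp.weight_apply, Finsupp.sum, Finset.sum_mul]
  refine Finset.sum_le_sum fun k _ => ?_
  refine (degreeOf_pow_le _ _ _).trans ?_
  rw [Pi.one_apply, smul_eq_mul, mul_one]
  exact Nat.mul_le_mul_left _ (degreeOf_gen _ _)

/-- The points hit. -/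
theorem exists_int_point [CharZero L] {p : MvPolynomial (Fin m) L} {N : ℕ}
    (hp : p.IsHomogeneous N) (h : comp L m D p ≠ 0) :
    ∃ c ∈ points N m D, eval (fun j => ((c j : ℤ) : L)) p ≠ 0 := by
  classical
  by_contra hcon
  push Not at hcon
  apply h
  refine eq_zero_of_eval_zero_at_prod_finset _
    (fun i => (Finset.range (N * Sum.elim (fun _ => m - 1) (fun _ => 1) i + 1)).image
      (fun t : ℕ => (t : L))) ?_ ?_
  · intro i
    rw [Finset.card_image_of_injective _ Nat.cast_injective, Finset.card_range]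
    exact Nat.lt_succ_of_le (degreeOf_comp hp i)
  · intro x hx
    have hx' : ∀ i, ∃ t : ℕ, t < N * Sum.elim (fun _ => m - 1) (fun _ => 1) i + 1 ∧
        (t : L) = x i := by
      intro i
      obtain ⟨t, ht, h1⟩ := Finset.mem_image.1 (hx i)
      exact ⟨t, Finset.mem_range.1 ht, h1⟩
    choose t ht htx using hx'
    rw [eval_comp]
    have h1 := hcon (point m D (fun l => ((t (Sum.inl l) : ℕ) : ℤ))
      (fun l => ((t (Sum.inr l) : ℕ) : ℤ))) (by
        refine Finset.mem_image.2 ⟨(fun l => ⟨t (Sum.inl l), by simpa using ht (Sum.inl l)⟩,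
          fun l => ⟨t (Sum.inr l), by simpa using ht (Sum.inr l)⟩), Finset.mem_univ _, rfl⟩)
    rw [← h1]
    congr 2
    funext j
    rw [point]
    push_cast
    rw [← htx (Sum.inl 0)]
    have h2 : ∀ q : ℕ, nodeP m (q : L) j = ((node m (q : ℤ) j : ℤ) : L) := by
      intro q
      rw [← nodeP_int]
      norm_cast
    rw [h2]
    congr 1
    refine Finset.sum_congr rfl fun l _ => ?_
    rw [← htx, ← htx, h2]

end

end Pool.Agent.TH652.PN
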