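import Pool.Agent.TH652.PN.Simple

/-!
# The determinant polynomial on an arbitrary module; the Edmonds–Rado property
-/

set_option autoImplicit false
set_option linter.unusedSectionVars false

open MvPolynomial

namespace Pool.Agent.TH652.PN

universe u v w

section alg

variable {L : Type u} [Field L] {m : ℕ} {B : Type v} [Ring B] [Algebra L B]

theorem dpoly_of_finrank_zero {V : Type w} [AddCommGroup V] [Module L V] [Module B V]
    [IsScalarTower L B V] [FiniteDimensional L V] (t : Fin m → B)
    (h : Module.finrank L V = 0) : dpoly L t V = 1 := by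
  unfold dpoly
  have : IsEmpty (Fin (Module.finrank L V)) := by rw [h]; infer_instance
  exact Matrix.det_isEmpty

theorem exists_proper {V : Type w} [AddCommGroup V] [Module B V] [Nontrivial V]
    (h : ¬ IsSimpleModule B V) : ∃ W : Submodule B V, W ≠ ⊥ ∧ W ≠ ⊤ := by
  by_contra hcon
  push Not at hcon
  refine h ?_
  rw [isSimpleModule_iff]
  exact { exists_pair_ne := ⟨⊥, ⊤, bot_ne_top⟩
          eq_bot_or_eq_top := fun W => by
            by_cases h1 : W = ⊥
            · exact Or.inl h1
            · exact Or.inr (hcon W h1) }

theorem finrank_sub_lt {V : Type w} [AddCommGroup V] [Module L V] [Module B V]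
    [IsScalarTower L B V] [FiniteDimensional L V] {W : Submodule B V} (h : W ≠ ⊤) :
    Module.finrank L W < Module.finrank L V := by
  have h1 : W.restrictScalars L ≠ ⊤ := by
    intro h2
    exact h (by
      rw [eq_top_iff]
      intro v _
      have : v ∈ W.restrictScalars L := by rw [h2]; trivial
      exact this)
  have h2 := Submodule.finrank_lt h1
  exact h2

theorem finrank_quot_lt {V : Type w} [AddCommGroup V] [Module L V] [Module B V]
    [IsScalarTower L B V] [FiniteDimensional L V] {W : Submodule B V} (h : W ≠ ⊥) :
    Module.finrank L (V ⧸ W) < Module.finrank L V := by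
  have h1 : Module.finrank L (V ⧸ W.restrictScalars L) = Module.finrank L (V ⧸ W) :=
    LinearEquiv.finrank_eq (Submodule.Quotient.restrictScalarsEquiv L W)
  have h2 := Submodule.finrank_quotient_add_finrank (W.restrictScalars L)
  have h3 : 0 < Module.finrank L (W.restrictScalars L) := by
    obtain ⟨v, hv, hv0⟩ := Submodule.exists_mem_ne_zero_of_ne_bot h
    have : Nontrivial (W.restrictScalars L) := ⟨⟨v, hv⟩, 0, fun h => hv0 (congrArg Subtype.val h)⟩
    exact Module.finrank_pos
  omega

/-- The determinant polynomial of every module is not killed. -/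
theorem hits_dpoly [IsAlgClosed L] {t : Fin m → B}
    (hB : Algebra.adjoin L (Set.range t) = ⊤) {d : ℕ} (hd : 1 ≤ d) {σ : Fin m → Fin m} {s e : ℕ}
    {c : ∀ j : ℕ, (Fin j → Fin m) → B} (h : Layers L t d σ s e c) {R' : Type*} [CommRing R']
    [IsDomain R'] (φ : MvPolynomial (Fin m) L →+* R') (hφ : Hits d φ) (N : ℕ) :
    ∀ (V : Type w) [AddCommGroup V] [Module L V] [Module B V] [IsScalarTower L B V]
      [FiniteDimensional L V], Module.finrank L V = N → dpoly L t V ≠ 0 →
      φ (dpoly L t V) ≠ 0 := by
  induction N using Nat.strong_induction_on with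
  | _ N ih =>
    intro V _ _ _ _ _ hN hne
    rcases Nat.eq_zero_or_pos N with h0 | h0
    · rw [dpoly_of_finrank_zero t (hN.trans h0), map_one]
      exact one_ne_zero
    · have : Nontrivial V := Module.nontrivial_of_finrank_pos (R := L) (by omega)
      by_cases hs : IsSimpleModule B V
      · exact simple_case hB hd h φ hφ hne
      · obtain ⟨W, h1, h2⟩ := exists_proper hs
        have i1 : FiniteDimensional L W := fd_sub W
        have i2 : FiniteDimensional L (V ⧸ W) := fd_quot W
        have h3 : dpoly L t V = dpoly L t W * dpoly L t (V ⧸ W) := dpoly_mul t W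
        rw [h3] at hne ⊢
        rw [map_mul]
        refine mul_ne_zero ?_ ?_
        · exact ih _ (hN ▸ finrank_sub_lt h2) W rfl (left_ne_zero_of_mul hne)
        · exact ih _ (hN ▸ finrank_quot_lt h1) (V ⧸ W) rfl (right_ne_zero_of_mul hne)

/-- In the polynormal case: the determinant polynomial is not zero, or there are submodules
`U₁ < U₂` such that the `t k` map `U₂` to `U₁`. -/
theorem er_dpoly [Infinite L] {t : Fin m → B}
    (hB : Algebra.adjoin L (Set.range t) = ⊤) {σ : Fin m → Fin m} (hσ : Function.Surjective σ)
    (hpoly : ∀ i : Fin m, ∀ j, ∃ a : B, t (σ i) * t j - a * t (σ i) ∈ lower L t σ i)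
    (N : ℕ) :
    ∀ (V : Type w) [AddCommGroup V] [Module L V] [Module B V] [IsScalarTower L B V]
      [FiniteDimensional L V], Module.finrank L V = N →
      dpoly L t V ≠ 0 ∨ ∃ U₁ U₂ : Submodule B V, U₁ < U₂ ∧ ∀ k, ∀ v ∈ U₂, t k • v ∈ U₁ := by
  induction N using Nat.strong_induction_on with
  | _ N ih =>
    intro V _ _ _ _ _ hN
    rcases Nat.eq_zero_or_pos N with h0 | h0
    · left
      rw [dpoly_of_finrank_zero t (hN.trans h0)]
      exact one_ne_zero
    · have : Nontrivial V := Module.nontrivial_of_finrank_pos (R := L) (by omega)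
      by_cases hs : IsSimpleModule B V
      · by_cases h1 : ∀ i : Fin m, (i : ℕ) < m → ∀ v : V, t (σ i) • v = 0
        · right
          refine ⟨⊥, ⊤, bot_lt_top, fun k v _ => ?_⟩
          obtain ⟨i, rfl⟩ := hσ k
          rw [h1 i i.2 v]
          exact Submodule.zero_mem _
        · left
          obtain ⟨i, hi⟩ := simple_first (V := V) hB (fun i _ => hpoly i) h1
          obtain ⟨a, U, h1, h2, h3⟩ := dpoly_ne_zero_of_inj (L := L) hi
          intro h4
          rw [h4, map_zero] at h3
          exact h3 rfl
      · obtain ⟨W, h1, h2⟩ := exists_proper hs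
        have i1 : FiniteDimensional L W := fd_sub W
        have i2 : FiniteDimensional L (V ⧸ W) := fd_quot W
        have h3 : dpoly L t V = dpoly L t W * dpoly L t (V ⧸ W) := dpoly_mul t W
        rcases ih _ (hN ▸ finrank_sub_lt h2) W rfl with h4 | ⟨U₁, U₂, h5, h6⟩
        · rcases ih _ (hN ▸ finrank_quot_lt h1) (V ⧸ W) rfl with h7 | ⟨U₁, U₂, h5, h6⟩
          · left
            rw [h3]
            exact mul_ne_zero h4 h7
          · right
            refine ⟨U₁.comap W.mkQ, U₂.comap W.mkQ, ?_, ?_⟩
            · refine lt_of_le_of_ne (Submodule.comap_mono h5.le) fun h => h5.ne ?_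
              exact Submodule.comap_injective_of_surjective W.mkQ_surjective h
            · intro k v hv
              rw [Submodule.mem_comap] at hv ⊢
              rw [map_smul]
              exact h6 k _ hv
        · right
          refine ⟨U₁.map W.subtype, U₂.map W.subtype, ?_, ?_⟩
          · refine lt_of_le_of_ne (Submodule.map_mono h5.le) fun h => h5.ne ?_
            exact Submodule.map_injective_of_injective W.injective_subtype h
          · intro k v hv
            obtain ⟨w, hw, rfl⟩ := Submodule.mem_map.1 hv
            rw [← map_smul]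
            exact Submodule.mem_map_of_mem (h6 k w hw)

end alg

end Pool.Agent.TH652.PN
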