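import Pool.Agent.TH652.PN.Ind
import Pool.Agent.TH652.PN.Gen

/-!
# Matrix families in unknown bases, block triangular with tame blocks
-/

set_option autoImplicit false
set_option linter.unusedSectionVars false

open MvPolynomial

namespace Pool.Agent.TH652.PN

universe u v

section defs

variable {L : Type u} [Field L] {m : ℕ} {ι : Type v} [Fintype ι] [DecidableEq ι]

/-- The algebra with `1` generated by the matrices `M_k`. -/
abbrev Gen (M : Fin m → Matrix ι ι L) : Subalgebra L (Matrix ι ι L) :=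
  Algebra.adjoin L (Set.range M)

/-- The ideal of the algebra `Gen M` generated by the first `i` of the matrices
`M_{σ 0}, M_{σ 1}, …` (the span of the products `a M_{σ k} b`, `k < i`). -/
def Below (M : Fin m → Matrix ι ι L) (σ : Equiv.Perm (Fin m)) (i : ℕ) :
    Submodule L (Matrix ι ι L) :=
  Submodule.span L {Z | ∃ k : Fin m, (k : ℕ) < i ∧ ∃ a ∈ Gen M, ∃ b ∈ Gen M, Z = a * M (σ k) * b}

/-- The first `s` of the matrices `M_{σ 0}, M_{σ 1}, …` are polynormal on one side:
`M_{σ i} M_j` is in `Gen M * M_{σ i}` modulo the ideal generated by `M_{σ 0}, …, M_{σ (i-1)}`. -/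
def PolynormalUpTo (M : Fin m → Matrix ι ι L) (σ : Equiv.Perm (Fin m)) (s : ℕ) : Prop :=
  ∀ i : Fin m, (i : ℕ) < s → ∀ j, ∃ a ∈ Gen M, M (σ i) * M j - a * M (σ i) ∈ Below M σ i

/-- Modulo the ideal generated by `M_{σ 0}, …, M_{σ (s-1)}` the generic matrix
`M(x) = ∑ x_k M_k` satisfies `M(x)^e + c_1(x) M(x)^(e-1) + ⋯ + c_e(x) = 0`, where `c_j(x)` is a
form of degree `j` in `x` whose coefficients are central in `Gen M` modulo this ideal. -/
def DegreeModulo (M : Fin m → Matrix ι ι L) (σ : Equiv.Perm (Fin m)) (s e : ℕ) : Prop :=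
  ∃ c : ∀ j : ℕ, (Fin j → Fin m) → Matrix ι ι L, (∀ j w, c j w ∈ Gen M) ∧
    (∀ j w k, c j w * M k - M k * c j w ∈ Below M σ s) ∧
    ∀ x : Fin m → L, (∑ k, x k • M k) ^ e + ∑ j ∈ Finset.range e,
      (∑ w : Fin (j + 1) → Fin m, (∏ l, x (w l)) • c (j + 1) w) *
        (∑ k, x k • M k) ^ (e - (j + 1)) ∈ Below M σ s

/-- In some order the first matrices are polynormal, and modulo the ideal generated by them the
generic matrix has degree at most `d` over the centre. -/
def Tame (d : ℕ) (M : Fin m → Matrix ι ι L) : Prop :=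
  ∃ (σ : Equiv.Perm (Fin m)) (s e : ℕ), e ≤ d ∧ PolynormalUpTo M σ s ∧ DegreeModulo M σ s e

/-- The matrices `M_k` are polynormal in some order. -/
def Polynormal (M : Fin m → Matrix ι ι L) : Prop := ∃ σ : Equiv.Perm (Fin m), PolynormalUpTo M σ m

end defs

section mod

variable {L : Type u} [Field L] {m : ℕ} {ι : Type v} [Fintype ι] [DecidableEq ι]

/-- the generators as elements of the algebra -/
def tt (M : Fin m → Matrix ι ι L) (k : Fin m) : Gen M :=
  ⟨M k, Algebra.subset_adjoin (Set.mem_range_self k)⟩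

theorem adjoin_tt (M : Fin m → Matrix ι ι L) : Algebra.adjoin L (Set.range (tt M)) = ⊤ := by
  have h : Set.range (tt M) = ((↑) : Gen M → Matrix ι ι L) ⁻¹' (Set.range M) := by
    ext z
    constructor
    · rintro ⟨k, rfl⟩
      exact ⟨k, rfl⟩
    · rintro ⟨k, hk⟩
      exact ⟨k, Subtype.ext hk⟩
  rw [h]
  exact Algebra.adjoin_adjoin_coe_preimage

theorem lower_of_below {M : Fin m → Matrix ι ι L} {σ : Equiv.Perm (Fin m)} {i : ℕ} {z : Gen M}
    (h : (z : Matrix ι ι L) ∈ Below M σ i) : z ∈ lower L (tt M) σ i := by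
  have h1 : Below M σ i = (lower L (tt M) σ i).map (Gen M).val.toLinearMap := by
    unfold Below lower
    rw [Submodule.map_span]
    congr 1
    ext Z
    constructor
    · rintro ⟨k, hk, a, ha, b, hb, rfl⟩
      exact ⟨_, ⟨k, hk, ⟨a, ha⟩, ⟨b, hb⟩, rfl⟩, rfl⟩
    · rintro ⟨_, ⟨k, hk, a, b, rfl⟩, rfl⟩
      exact ⟨k, hk, a, a.2, b, b.2, rfl⟩
  rw [h1] at h
  obtain ⟨z', hz', h2⟩ := Submodule.mem_map.1 h
  have h3 : z' = z := Subtype.ext h2
  rwa [← h3]

theorem poly_tt {M : Fin m → Matrix ι ι L} {σ : Equiv.Perm (Fin m)} {s : ℕ}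
    (h : PolynormalUpTo M σ s) : ∀ i : Fin m, (i : ℕ) < s → ∀ j, ∃ a : Gen M,
      tt M (σ i) * tt M j - a * tt M (σ i) ∈ lower L (tt M) σ i := by
  intro i hi j
  obtain ⟨a, ha, h1⟩ := h i hi j
  exact ⟨⟨a, ha⟩, lower_of_below h1⟩

theorem layers_tt {M : Fin m → Matrix ι ι L} {σ : Equiv.Perm (Fin m)} {s e d : ℕ} (he : e ≤ d)
    (h : PolynormalUpTo M σ s) (h' : DegreeModulo M σ s e) :
    ∃ c : ∀ j : ℕ, (Fin j → Fin m) → Gen M, Layers L (tt M) d σ s e c := by
  obtain ⟨c, h1, h2, h3⟩ := h'
  refine ⟨fun j w => ⟨c j w, h1 j w⟩, he, poly_tt h, ?_, ?_⟩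
  · intro j w k
    exact lower_of_below (h2 j w k)
  · intro x
    refine lower_of_below ?_
    have h4 := h3 x
    simp only [lin, homog, Subalgebra.coe_add, Subalgebra.coe_pow, AddSubmonoidClass.coe_finsetSum,
      Subalgebra.coe_smul, Subalgebra.coe_mul]
    exact h4

/-- the space of column vectors, with the action of the algebra `Gen M` -/
def Col (_M : Fin m → Matrix ι ι L) : Type (max u v) := ι → L

instance (M : Fin m → Matrix ι ι L) : AddCommGroup (Col M) := inferInstanceAs (AddCommGroup (ι → L))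

instance (M : Fin m → Matrix ι ι L) : Module L (Col M) := inferInstanceAs (Module L (ι → L))

instance (M : Fin m → Matrix ι ι L) : FiniteDimensional L (Col M) :=
  inferInstanceAs (FiniteDimensional L (ι → L))

noncomputable instance (M : Fin m → Matrix ι ι L) : Module (Gen M) (Col M) :=
  Module.compHom (ι → L) (((Matrix.toLinAlgEquiv' (R := L) (n := ι)).toAlgHom.comp
    (Gen M).val).toRingHom)

theorem col_smul (M : Fin m → Matrix ι ι L) (z : Gen M) (v : Col M) :
    z • v = ((z : Matrix ι ι L).mulVec v : ι → L) := rfl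

instance (M : Fin m → Matrix ι ι L) : IsScalarTower L (Gen M) (Col M) := by
  refine ⟨fun r z v => ?_⟩
  exact Matrix.smul_mulVec r (z : Matrix ι ι L) (v : ι → L)

/-- the identity -/
def colEquiv (M : Fin m → Matrix ι ι L) : Col M ≃ₗ[L] (ι → L) := LinearEquiv.refl L (ι → L)

theorem dpoly_tt [Infinite L] (M : Fin m → Matrix ι ι L) :
    dpoly L (tt M) (Col M) = (symb M).det := by
  apply MvPolynomial.funext
  intro x
  rw [eval_dpoly, eval_det_symb, ← LinearMap.det_toLin']
  refine det_eq_of_equiv (colEquiv M) fun v => ?_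
  rw [LinearMap.sum_apply, map_sum, Matrix.toLin'_apply, Matrix.sum_mulVec]
  refine Finset.sum_congr rfl fun k _ => ?_
  exact (Matrix.smul_mulVec (x k) (M k) (v : ι → L)).symm

theorem tame_hits [IsAlgClosed L] {d : ℕ} (hd : 1 ≤ d) {M : Fin m → Matrix ι ι L}
    (h : Tame d M) {R' : Type*} [CommRing R'] [IsDomain R'] (φ : MvPolynomial (Fin m) L →+* R')
    (hφ : Hits d φ) (hne : (symb M).det ≠ 0) : φ (symb M).det ≠ 0 := by
  obtain ⟨σ, s, e, he, h1, h2⟩ := h
  obtain ⟨c, hc⟩ := layers_tt he h1 h2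
  have h3 := dpoly_tt M
  have h4 := hits_dpoly (adjoin_tt M) hd hc φ hφ _ (Col M) rfl
  rw [h3] at h4
  exact h4 hne

theorem tame_er [Infinite L] {M : Fin m → Matrix ι ι L} (h : Polynormal M)
    (h0 : (symb M).det = 0) : ∃ U₁ U₂ : Submodule L (ι → L), U₁ < U₂ ∧
      ∀ k, ∀ v ∈ U₂, (M k).mulVec v ∈ U₁ := by
  obtain ⟨σ, h1⟩ := h
  have h3 := dpoly_tt M
  rcases er_dpoly (adjoin_tt M) σ.surjective (fun i => poly_tt h1 i i.2) _ (Col M) rfl with
    h4 | ⟨U₁, U₂, h5, h6⟩
  · rw [h3] at h4
    exact absurd h0 h4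
  · refine ⟨(U₁.restrictScalars L : Submodule L (Col M)), (U₂.restrictScalars L :
      Submodule L (Col M)), ?_, fun k v hv => h6 k v hv⟩
    refine lt_of_le_of_ne (fun v hv => h5.le hv) fun h => h5.ne ?_
    exact Submodule.restrictScalars_injective L _ _ h

end mod

section blocks

variable {L : Type u} [Field L] {m n : ℕ}

theorem symb_square {M : Fin m → Matrix (Fin n) (Fin n) L} {b : Fin n → ℕ} (q : ℕ) :
    (symb M).toSquareBlock b q = symb fun k => (M k).toSquareBlock b q := by
  ext i j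
  simp [symb, Matrix.toSquareBlock, Matrix.toSquareBlockProp, Matrix.sum_apply]

theorem symb_triangular {M : Fin m → Matrix (Fin n) (Fin n) L} {b : Fin n → ℕ}
    (h : ∀ k, (M k).BlockTriangular b) : (symb M).BlockTriangular b := by
  intro i j hij
  rw [symb, Matrix.sum_apply]
  refine Finset.sum_eq_zero fun k _ => ?_
  rw [Matrix.smul_apply, Matrix.map_apply, h k hij, map_zero, smul_zero]

theorem symb_det_blocks {M : Fin m → Matrix (Fin n) (Fin n) L} {b : Fin n → ℕ}
    (h : ∀ k, (M k).BlockTriangular b) : (symb M).det =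
      ∏ q ∈ Finset.univ.image b, (symb fun k => (M k).toSquareBlock b q).det := by
  rw [(symb_triangular h).det]
  exact Finset.prod_congr rfl fun q _ => by rw [symb_square]

theorem symb_mul (P Q : Matrix (Fin n) (Fin n) L) (A : Fin m → Matrix (Fin n) (Fin n) L) :
    (symb fun k => P * A k * Q) = P.map C * symb A * Q.map C := by
  rw [symb, symb, Matrix.mul_sum, Matrix.sum_mul]
  refine Finset.sum_congr rfl fun k _ => ?_
  rw [Matrix.mul_smul, Matrix.smul_mul, Matrix.map_mul, Matrix.map_mul]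

theorem symb_det_mul (P Q : Matrix (Fin n) (Fin n) L) (A : Fin m → Matrix (Fin n) (Fin n) L) :
    (symb fun k => P * A k * Q).det = C P.det * (symb A).det * C Q.det := by
  rw [symb_mul, Matrix.det_mul, Matrix.det_mul]
  congr 1
  · congr 1
    exact (RingHom.map_det C P).symm
  · exact (RingHom.map_det C Q).symm

/-- In unknown bases over `L` the matrices `A_k` are block triangular (`b i` is the number of the
block of the index `i`), and the families of the diagonal blocks are tame. -/
def Hidden {K : Type*} [Field K] (L : Type u) [Field L] [Algebra K L] (d : ℕ)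
    (A : Fin m → Matrix (Fin n) (Fin n) K) : Prop :=
  ∃ (P Q : Matrix (Fin n) (Fin n) L) (b : Fin n → ℕ), P.det ≠ 0 ∧ Q.det ≠ 0 ∧
    (∀ k, (P * (A k).map (algebraMap K L) * Q).BlockTriangular b) ∧
    ∀ q, Tame d fun k => (P * (A k).map (algebraMap K L) * Q).toSquareBlock b q

theorem hidden_hits {K : Type*} [Field K] [IsAlgClosed L] [Algebra K L] {d : ℕ} (hd : 1 ≤ d)
    {A : Fin m → Matrix (Fin n) (Fin n) K} (h : Hidden L d A) {R' : Type*} [CommRing R']
    [IsDomain R'] (φ : MvPolynomial (Fin m) L →+* R') (hφ : Hits d φ)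
    (hne : (symb A).det ≠ 0) : φ (symb fun k => (A k).map (algebraMap K L)).det ≠ 0 := by
  obtain ⟨P, Q, b, hP, hQ, hb, ht⟩ := h
  have h1 : (symb fun k => (A k).map (algebraMap K L)).det ≠ 0 := by
    have h2 : (symb fun k => (A k).map (algebraMap K L)) =
        (symb A).map (MvPolynomial.map (algebraMap K L)) := by
      ext1 i j
      simp [symb, Matrix.sum_apply]
    rw [h2]
    have h3 : ((symb A).map (MvPolynomial.map (algebraMap K L))).det =
        MvPolynomial.map (algebraMap K L) (symb A).det :=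
      (RingHom.map_det (MvPolynomial.map (algebraMap K L)) (symb A)).symm
    rw [h3]
    intro h4
    apply hne
    exact MvPolynomial.map_injective _ (algebraMap K L).injective (by rw [h4, map_zero])
  have h2 := symb_det_mul P Q fun k => (A k).map (algebraMap K L)
  have h3 : (symb fun k => P * (A k).map (algebraMap K L) * Q).det ≠ 0 := by
    rw [h2]
    refine mul_ne_zero (mul_ne_zero ?_ h1) ?_
    · exact (map_ne_zero_iff _ (C_injective _ _)).2 hP
    · exact (map_ne_zero_iff _ (C_injective _ _)).2 hQ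
  have h4 : φ (symb fun k => P * (A k).map (algebraMap K L) * Q).det ≠ 0 := by
    rw [symb_det_blocks hb] at h3 ⊢
    rw [map_prod]
    rw [Finset.prod_ne_zero_iff] at h3 ⊢
    intro q hq
    exact tame_hits hd (ht q) φ hφ (h3 q hq)
  rw [h2, map_mul, map_mul] at h4
  exact right_ne_zero_of_mul (left_ne_zero_of_mul h4)

/-- **The hitting set.** -/
theorem hitting {K : Type*} [Field K] [CharZero K] [IsAlgClosed L] [Algebra K L] {D : ℕ}
    {A : Fin m → Matrix (Fin n) (Fin n) K} (h : Hidden L (D + 1) A) :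
    (symb A).det ≠ 0 ↔ ∃ c ∈ points n m D, (∑ k, (c k : K) • A k).det ≠ 0 := by
  have : CharZero L := charZero_of_injective_algebraMap (algebraMap K L).injective
  constructor
  · intro hne
    have h1 := hidden_hits (by omega) h (comp L m D) (hits_comp m D) hne
    have h2 := symb_det_homog fun k => (A k).map (algebraMap K L)
    rw [Fintype.card_fin] at h2
    obtain ⟨c, hc, h3⟩ := exists_int_point h2 h1
    refine ⟨c, hc, fun h4 => h3 ?_⟩
    rw [eval_det_symb]
    have h5 : (∑ k, ((c k : ℤ) : L) • (A k).map (algebraMap K L)) =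
        (∑ k, (c k : K) • A k).map (algebraMap K L) := by
      ext i j
      simp [Matrix.sum_apply]
    rw [h5]
    have h6 : ((∑ k, (c k : K) • A k).map (algebraMap K L)).det =
        algebraMap K L (∑ k, (c k : K) • A k).det :=
      (RingHom.map_det (algebraMap K L) _).symm
    rw [h6, h4, map_zero]
  · rintro ⟨c, -, hc⟩ h0
    apply hc
    rw [← eval_det_symb, h0, map_zero]

/-- In unknown bases the matrices `A_k` are block triangular with polynormal diagonal blocks. -/
def HiddenPolynormal {K : Type*} [Field K] (A : Fin m → Matrix (Fin n) (Fin n) K) : Prop :=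
  ∃ (P Q : Matrix (Fin n) (Fin n) K) (b : Fin n → ℕ), P.det ≠ 0 ∧ Q.det ≠ 0 ∧
    (∀ k, (P * A k * Q).BlockTriangular b) ∧
    ∀ q, Polynormal fun k => (P * A k * Q).toSquareBlock b q

/-- the lift of a subspace of a block -/
def liftSub {K : Type*} [Field K] {b : Fin n → ℕ} (q : ℕ)
    (U : Submodule K ({i : Fin n // b i = q} → K)) : Submodule K (Fin n → K) where
  carrier := {v | (∀ i, q < b i → v i = 0) ∧ (fun i : {i : Fin n // b i = q} => v i) ∈ U}
  add_mem' := by
    rintro v w ⟨h1, h2⟩ ⟨h3, h4⟩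
    refine ⟨fun i hi => ?_, U.add_mem h2 h4⟩
    rw [Pi.add_apply, h1 i hi, h3 i hi, add_zero]
  zero_mem' := ⟨fun _ _ => rfl, U.zero_mem⟩
  smul_mem' := by
    rintro r v ⟨h1, h2⟩
    refine ⟨fun i hi => ?_, U.smul_mem r h2⟩
    rw [Pi.smul_apply, h1 i hi, smul_zero]

theorem liftSub_lt {K : Type*} [Field K] {b : Fin n → ℕ} {q : ℕ}
    {U₁ U₂ : Submodule K ({i : Fin n // b i = q} → K)} (h : U₁ < U₂) :
    liftSub q U₁ < liftSub q U₂ := by
  refine lt_of_le_of_ne (fun v hv => ⟨hv.1, h.le hv.2⟩) fun heq => ?_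
  obtain ⟨u, hu, hu'⟩ := SetLike.exists_of_lt h
  set v : Fin n → K := fun i => if hi : b i = q then u ⟨i, hi⟩ else 0 with hv
  have h1 : (fun i : {i : Fin n // b i = q} => v i) = u := by
    funext i
    rw [hv]
    simp only [dif_pos i.2]
  have h2 : v ∈ liftSub q U₂ := by
    refine ⟨fun i hi => ?_, ?_⟩
    · rw [hv]
      simp only [dif_neg (Nat.ne_of_gt hi)]
    · rw [h1]; exact hu
  rw [← heq] at h2
  have h3 := h2.2
  rw [h1] at h3
  exact hu' h3

theorem liftSub_mul {K : Type*} [Field K] {b : Fin n → ℕ} {q : ℕ}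
    {U₁ U₂ : Submodule K ({i : Fin n // b i = q} → K)} {M : Matrix (Fin n) (Fin n) K}
    (hM : M.BlockTriangular b) (h : ∀ v ∈ U₂, (M.toSquareBlock b q).mulVec v ∈ U₁)
    {v : Fin n → K} (hv : v ∈ liftSub q U₂) : M.mulVec v ∈ liftSub q U₁ := by
  classical
  refine ⟨fun i hi => ?_, ?_⟩
  · rw [Matrix.mulVec, dotProduct]
    refine Finset.sum_eq_zero fun j _ => ?_
    by_cases hj : q < b j
    · rw [hv.1 j hj, mul_zero]
    · rw [hM (lt_of_le_of_lt (not_lt.1 hj) hi), zero_mul]
  · have h1 : (fun i : {i : Fin n // b i = q} => M.mulVec v i) =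
        (M.toSquareBlock b q).mulVec fun i => v i := by
      funext i
      rw [Matrix.mulVec, Matrix.mulVec, dotProduct, dotProduct]
      symm
      refine Fintype.sum_of_injective (fun j : {i : Fin n // b i = q} => (j : Fin n))
        Subtype.val_injective _ _ ?_ ?_
      · intro j hj
        have hj' : b j ≠ q := fun h => hj ⟨⟨j, h⟩, rfl⟩
        rcases lt_or_gt_of_ne hj' with h2 | h2
        · rw [hM (by rw [i.2]; exact h2), zero_mul]
        · rw [hv.1 j h2, mul_zero]
      · intro j
        rfl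
    rw [h1]
    exact h _ hv.2

theorem finrank_map_inj {K V W : Type*} [Field K] [AddCommGroup V] [Module K V] [AddCommGroup W]
    [Module K W] {f : V →ₗ[K] W} (hf : Function.Injective f) (p : Submodule K V) :
    Module.finrank K (p.map f) = Module.finrank K p :=
  (Submodule.equivMapOfInjective f hf p).finrank_eq.symm

/-- **The Edmonds–Rado property.** -/
theorem edmonds_rado {K : Type*} [Field K] [Infinite K] {A : Fin m → Matrix (Fin n) (Fin n) K}
    (h : HiddenPolynormal A) :
    (symb A).det = 0 ↔ ∃ U : Submodule K (Fin n → K),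
      Module.finrank K ↥(⨆ k, U.map (A k).mulVecLin) < Module.finrank K U := by
  constructor
  · intro h0
    obtain ⟨P, Q, b, hP, hQ, hb, ht⟩ := h
    have h1 : (symb fun k => P * A k * Q).det = 0 := by
      rw [symb_det_mul, h0, mul_zero, zero_mul]
    rw [symb_det_blocks hb, Finset.prod_eq_zero_iff] at h1
    obtain ⟨q, -, h2⟩ := h1
    obtain ⟨U₁, U₂, h3, h4⟩ := tame_er (ht q) h2
    set W₁ := liftSub q U₁
    set W₂ := liftSub q U₂
    have h5 : W₁ < W₂ := liftSub_lt h3
    have h6 : ∀ k, ∀ v ∈ W₂, (P * A k * Q).mulVec v ∈ W₁ := fun k v hv =>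
      liftSub_mul (hb k) (h4 k) hv
    refine ⟨W₂.map Q.mulVecLin, ?_⟩
    have hQi : Function.Injective Q.mulVecLin := by
      have := Matrix.mulVec_injective_iff_isUnit.2
        ((Matrix.isUnit_iff_isUnit_det Q).2 (isUnit_iff_ne_zero.2 hQ))
      exact this
    have hPi : Function.Injective P.mulVecLin := by
      have := Matrix.mulVec_injective_iff_isUnit.2
        ((Matrix.isUnit_iff_isUnit_det P).2 (isUnit_iff_ne_zero.2 hP))
      exact this
    have e1 : Module.finrank K (W₂.map Q.mulVecLin) = Module.finrank K W₂ :=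
      finrank_map_inj hQi W₂
    have e2 : (⨆ k, (W₂.map Q.mulVecLin).map (A k).mulVecLin) ≤ W₁.comap P.mulVecLin := by
      refine iSup_le fun k => ?_
      intro v hv
      obtain ⟨w, hw, rfl⟩ := Submodule.mem_map.1 hv
      obtain ⟨z, hz, rfl⟩ := Submodule.mem_map.1 hw
      rw [Submodule.mem_comap, Matrix.mulVecLin_apply, Matrix.mulVecLin_apply,
        Matrix.mulVecLin_apply, Matrix.mulVec_mulVec, Matrix.mulVec_mulVec]
      exact h6 k z hz
    have e3 : Module.finrank K (W₁.comap P.mulVecLin) ≤ Module.finrank K W₁ := by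
      have h7 : (W₁.comap P.mulVecLin).map P.mulVecLin ≤ W₁ := Submodule.map_comap_le _ _
      calc Module.finrank K (W₁.comap P.mulVecLin)
          = Module.finrank K ((W₁.comap P.mulVecLin).map P.mulVecLin) :=
            (finrank_map_inj hPi _).symm
        _ ≤ Module.finrank K W₁ := Submodule.finrank_mono h7
    rw [e1]
    exact lt_of_le_of_lt ((Submodule.finrank_mono e2).trans e3) (Submodule.finrank_lt_finrank_of_lt h5)
  · rintro ⟨U, hU⟩
    apply MvPolynomial.funext
    intro x
    rw [eval_det_symb, map_zero]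
    by_contra hne
    have hi : Function.Injective (∑ k, x k • A k).mulVecLin := by
      have := Matrix.mulVec_injective_iff_isUnit.2
        ((Matrix.isUnit_iff_isUnit_det _).2 (isUnit_iff_ne_zero.2 hne))
      exact this
    have h1 : U.map (∑ k, x k • A k).mulVecLin ≤ ⨆ k, U.map (A k).mulVecLin := by
      intro v hv
      obtain ⟨w, hw, rfl⟩ := Submodule.mem_map.1 hv
      rw [Matrix.mulVecLin_apply, Matrix.sum_mulVec]
      refine Submodule.sum_mem _ fun k _ => ?_
      rw [Matrix.smul_mulVec]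
      refine Submodule.smul_mem _ _ ?_
      exact Submodule.mem_iSup_of_mem k (Submodule.mem_map_of_mem (f := (A k).mulVecLin) hw)
    have h2 := Submodule.finrank_mono h1
    rw [finrank_map_inj hi] at h2
    omega

end blocks

end Pool.Agent.TH652.PN
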