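import Mathlib

/-!
# Symbolic determinants on modules over an algebra with polynormal / integral generators
-/

set_option autoImplicit false

open MvPolynomial

namespace Pool.Agent.TH652.PN

universe u v w

/-- The symbolic matrix `∑ x_k M_k`. -/
noncomputable def symb {R ι : Type*} [CommRing R] {m : ℕ} (M : Fin m → Matrix ι ι R) :
    Matrix ι ι (MvPolynomial (Fin m) R) :=
  ∑ k, (X k : MvPolynomial (Fin m) R) • (M k).map C

theorem symb_map {R ι : Type*} [CommRing R] {m : ℕ} (M : Fin m → Matrix ι ι R) (x : Fin m → R) :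
    (symb M).map (eval x) = ∑ k, x k • M k := by
  ext i j
  simp [symb, Matrix.sum_apply, Matrix.smul_apply]

theorem eval_det_symb {R ι : Type*} [CommRing R] [Fintype ι] [DecidableEq ι] {m : ℕ}
    (M : Fin m → Matrix ι ι R) (x : Fin m → R) :
    eval x (symb M).det = (∑ k, x k • M k).det := by
  rw [RingHom.map_det, ← symb_map M x]
  rfl

theorem symb_det_homog {R ι : Type*} [CommRing R] [Fintype ι] [DecidableEq ι] {m : ℕ}
    (M : Fin m → Matrix ι ι R) : (symb M).det.IsHomogeneous (Fintype.card ι) := by
  rw [Matrix.det_apply]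
  refine IsHomogeneous.sum _ _ _ fun σ _ => ?_
  have h1 : (∏ i, symb M (σ i) i).IsHomogeneous (∑ _i : ι, 1) := by
    refine IsHomogeneous.prod _ _ _ fun i _ => ?_
    rw [symb, Matrix.sum_apply]
    refine IsHomogeneous.sum _ _ _ fun k _ => ?_
    rw [Matrix.smul_apply, smul_eq_mul, Matrix.map_apply, mul_comm]
    exact (isHomogeneous_C_mul_X _ _)
  rw [Finset.sum_const, smul_eq_mul, mul_one, Finset.card_univ] at h1
  rcases Int.units_eq_one_or (Equiv.Perm.sign σ) with h | h
  · rw [h, one_smul]; exact h1
  · rw [h, Units.neg_smul, one_smul]; exact h1.neg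

section crux

variable {R R' ι : Type*} [CommRing R] [IsDomain R] [CommRing R'] [IsDomain R'] [Fintype ι]
  [DecidableEq ι]

theorem cancel_left {T Q : Matrix ι ι R} (h : T.det ≠ 0) (h0 : T * Q = 0) : Q = 0 := by
  have h1 : T.adjugate * (T * Q) = T.det • Q := by
    rw [← Matrix.mul_assoc, Matrix.adjugate_mul, Matrix.smul_mul, Matrix.one_mul]
  rw [h0, Matrix.mul_zero] at h1
  ext i j
  have h2 := congrFun (congrFun h1 i) j
  rw [Matrix.smul_apply, Matrix.zero_apply, smul_eq_mul] at h2
  rcases mul_eq_zero.1 h2.symm with h3 | h3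
  · exact absurd h3 h
  · rw [h3, Matrix.zero_apply]

theorem crux [Nonempty ι] (T : Matrix ι ι R) (Γ : ℕ → R) (φ : R →+* R') (e : ℕ)
    (hφ : ∀ j ≤ e, Γ j ≠ 0 → φ (Γ j) ≠ 0) (hdet : T.det ≠ 0)
    (h : T ^ e + ∑ j ∈ Finset.range e, Γ (j + 1) • T ^ (e - (j + 1)) = 0) :
    φ T.det ≠ 0 := by
  induction e with
  | zero =>
    exfalso
    simp only [pow_zero, Finset.range_zero, Finset.sum_empty, add_zero] at h
    have h1 := congrArg Matrix.det h
    rw [Matrix.det_one, Matrix.det_zero] at h1
    exact one_ne_zero h1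
  | succ e ih =>
    set Q : Matrix ι ι R := T ^ e + ∑ j ∈ Finset.range e, Γ (j + 1) • T ^ (e - (j + 1)) with hQ
    have h1 : T * Q + Γ (e + 1) • (1 : Matrix ι ι R) = 0 := by
      rw [← h, Finset.sum_range_succ, hQ, mul_add, Finset.mul_sum, ← pow_succ', Nat.sub_self,
        pow_zero, add_assoc]
      congr 2
      refine Finset.sum_congr rfl fun j hj => ?_
      rw [Finset.mem_range] at hj
      rw [Matrix.mul_smul, ← pow_succ']
      congr 2
      omega
    by_cases hΓ : Γ (e + 1) = 0
    · rw [hΓ, zero_smul, add_zero] at h1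
      exact ih (fun j hj => hφ j (by omega)) (cancel_left hdet h1)
    · intro h0
      have h2 : T * Q = -(Γ (e + 1)) • (1 : Matrix ι ι R) := by
        rw [neg_smul]; exact eq_neg_of_add_eq_zero_left h1
      have h3 := congrArg (fun M : Matrix ι ι R => φ M.det) h2
      simp only [Matrix.det_mul, map_mul, h0, zero_mul] at h3
      rw [Matrix.det_smul, Matrix.det_one, mul_one, map_pow, map_neg] at h3
      exact pow_ne_zero _ (neg_ne_zero.2 (hφ _ le_rfl hΓ)) h3.symm

end crux

section alg

variable {L : Type u} [Field L] {m : ℕ} {B : Type v} [Ring B] [Algebra L B]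

/-- `∑ x_k t_k` -/
def lin (t : Fin m → B) (x : Fin m → L) : B := ∑ k, x k • t k

/-- the homogeneous polynomial map of degree `j` with coefficients `c w`, `w` a word of length
`j`: `∑_w x_{w 1} ⋯ x_{w j} c w` -/
def homog {j : ℕ} (c : (Fin j → Fin m) → B) (x : Fin m → L) : B := ∑ w, (∏ l, x (w l)) • c w

variable (L) in
/-- the span of the products `a t_{σ k} b` with `k < i` -/
def lower (t : Fin m → B) (σ : Fin m → Fin m) (i : ℕ) : Submodule L B :=
  Submodule.span L {z | ∃ k : Fin m, (k : ℕ) < i ∧ ∃ a b : B, z = a * t (σ k) * b}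

/-- The relations. -/
structure Layers (L : Type u) [Field L] {B : Type v} [Ring B] [Algebra L B] (t : Fin m → B) (d : ℕ)
    (σ : Fin m → Fin m) (s e : ℕ) (c : ∀ j : ℕ, (Fin j → Fin m) → B) : Prop where
  le : e ≤ d
  poly : ∀ i : Fin m, (i : ℕ) < s → ∀ j, ∃ a : B, t (σ i) * t j - a * t (σ i) ∈ lower L t σ i
  central : ∀ j w k, c j w * t k - t k * c j w ∈ lower L t σ s
  rel : ∀ x : Fin m → L, lin t x ^ e + ∑ j ∈ Finset.range e,
    homog (c (j + 1)) x * lin t x ^ (e - (j + 1)) ∈ lower L t σ s

variable {V : Type w} [AddCommGroup V] [Module L V] [Module B V] [IsScalarTower L B V]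

theorem lower_smul {t : Fin m → B} {σ : Fin m → Fin m} {i : ℕ}
    (h : ∀ k : Fin m, (k : ℕ) < i → ∀ v : V, t (σ k) • v = 0) {z : B} (hz : z ∈ lower L t σ i)
    (v : V) : z • v = 0 := by
  unfold lower at hz
  induction hz using Submodule.span_induction with
  | mem z hz =>
    obtain ⟨k, hk, a, b, rfl⟩ := hz
    rw [mul_smul, mul_smul, h k hk, smul_zero]
  | zero => exact zero_smul _ _
  | add a b _ _ ha hb => rw [add_smul, ha, hb, add_zero]
  | smul r a _ ha => rw [smul_assoc, ha, smul_zero]

theorem all_of_gen {t : Fin m → B} (hB : Algebra.adjoin L (Set.range t) = ⊤) {p : B → Prop}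
    (h1 : ∀ r : L, p (algebraMap L B r)) (h2 : ∀ k, p (t k)) (h3 : ∀ a b, p a → p b → p (a + b))
    (h4 : ∀ a b, p a → p b → p (a * b)) (b : B) : p b := by
  have hb : b ∈ Algebra.adjoin L (Set.range t) := by rw [hB]; trivial
  induction hb using Algebra.adjoin_induction with
  | mem x hx => obtain ⟨k, rfl⟩ := hx; exact h2 k
  | algebraMap r => exact h1 r
  | add x y _ _ hx hy => exact h3 _ _ hx hy
  | mul x y _ _ hx hy => exact h4 _ _ hx hy

/-- an element which commutes on `V` with the generators commutes with everything -/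
theorem comm_all {t : Fin m → B} (hB : Algebra.adjoin L (Set.range t) = ⊤) {z : B}
    (hz : ∀ k (v : V), z • t k • v = t k • z • v) (b : B) (v : V) : z • b • v = b • z • v := by
  revert v
  refine all_of_gen (L := L) hB (p := fun b => ∀ v : V, z • b • v = b • z • v) ?_ ?_ ?_ ?_ b
  · intro r v
    rw [← mul_smul, ← mul_smul, ← Algebra.commutes]
  · exact hz
  · intro a b ha hb v
    rw [add_smul, smul_add, ha, hb, add_smul]
  · intro a b ha hb v
    rw [mul_smul, ha, hb, mul_smul]

/-- the kernel of a one-sided normal element -/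
def kerSub {t : Fin m → B} (hB : Algebra.adjoin L (Set.range t) = ⊤) {σ : Fin m → Fin m}
    {i : Fin m} (hrel : ∀ j, ∃ a : B, t (σ i) * t j - a * t (σ i) ∈ lower L t σ i)
    (h : ∀ k : Fin m, (k : ℕ) < i → ∀ v : V, t (σ k) • v = 0) : Submodule B V where
  carrier := {v | t (σ i) • v = 0}
  add_mem' := by
    intro a b ha hb
    simp only [Set.mem_ofPred_eq] at ha hb ⊢
    rw [smul_add, ha, hb, add_zero]
  zero_mem' := smul_zero _
  smul_mem' := by
    intro c v hv
    simp only [Set.mem_ofPred_eq] at hv ⊢
    have h1 : ∀ v : V, t (σ i) • v = 0 → t (σ i) • c • v = 0 := by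
      refine all_of_gen (L := L) hB (p := fun c => ∀ v : V, t (σ i) • v = 0 →
        t (σ i) • c • v = 0) ?_ ?_ ?_ ?_ c
      · intro r v hv
        rw [← mul_smul, ← Algebra.commutes, mul_smul, hv, smul_zero]
      · intro j v hv
        obtain ⟨a, ha⟩ := hrel j
        have h2 := lower_smul (V := V) h ha v
        rw [sub_smul, mul_smul, mul_smul, hv, smul_zero, sub_zero] at h2
        exact h2
      · intro a b ha hb v hv
        rw [add_smul, smul_add, ha v hv, hb v hv, add_zero]
      · intro a b ha hb v hv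
        rw [mul_smul]
        exact ha _ (hb v hv)
    exact h1 v hv

/-- the action of `t k` -/
def act (L : Type u) [Field L] {B : Type v} [Ring B] [Algebra L B] (t : Fin m → B) (V : Type w)
    [AddCommGroup V] [Module L V] [Module B V] [IsScalarTower L B V] (k : Fin m) :
    Module.End L V := Algebra.lsmul L L V (t k)

theorem act_apply (t : Fin m → B) (k : Fin m) (v : V) : act L t V k v = t k • v := rfl

/-- The determinant of `∑ x_k t_k` on `V`, a polynomial. -/
noncomputable def dpoly (L : Type u) [Field L] {B : Type v} [Ring B] [Algebra L B] (t : Fin m → B)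
    (V : Type w) [AddCommGroup V] [Module L V] [Module B V] [IsScalarTower L B V]
    [FiniteDimensional L V] : MvPolynomial (Fin m) L :=
  (symb fun k => LinearMap.toMatrix (Module.finBasis L V) (Module.finBasis L V)
    (act L t V k)).det

variable [FiniteDimensional L V]

theorem eval_dpoly (t : Fin m → B) (x : Fin m → L) :
    eval x (dpoly L t V) = LinearMap.det (∑ k, x k • act L t V k) := by
  rw [dpoly, eval_det_symb, ← LinearMap.det_toMatrix (Module.finBasis L V), map_sum]
  simp only [map_smul]

theorem dpoly_homog (t : Fin m → B) : (dpoly L t V).IsHomogeneous (Module.finrank L V) := by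
  have h := symb_det_homog fun k => LinearMap.toMatrix (Module.finBasis L V)
    (Module.finBasis L V) (act L t V k)
  rw [Fintype.card_fin] at h
  exact h

theorem det_eq_of_equiv {M N : Type*} [AddCommGroup M] [Module L M] [AddCommGroup N] [Module L N]
    {f : Module.End L M} {g : Module.End L N} (e : M ≃ₗ[L] N) (h : ∀ v, e (f v) = g (e v)) :
    LinearMap.det f = LinearMap.det g := by
  rw [← LinearMap.det_conj f e]
  congr 1
  ext v
  rw [LinearMap.comp_apply, LinearMap.comp_apply, LinearEquiv.coe_coe, LinearEquiv.coe_coe, h,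
    LinearEquiv.apply_symm_apply]

theorem dpoly_mul [Infinite L] (t : Fin m → B) (W : Submodule B V) [FiniteDimensional L W]
    [FiniteDimensional L (V ⧸ W)] : dpoly L t V = dpoly L t W * dpoly L t (V ⧸ W) := by
  apply MvPolynomial.funext
  intro x
  rw [map_mul, eval_dpoly, eval_dpoly, eval_dpoly]
  set e : Module.End L V := ∑ k, x k • act L t V k with he
  have heap : ∀ v, e v = ∑ k, x k • t k • v := by
    intro v
    rw [he, LinearMap.sum_apply]
    rfl
  have hle : W.restrictScalars L ≤ (W.restrictScalars L).comap e := by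
    intro v hv
    rw [Submodule.mem_comap, heap]
    refine Submodule.sum_mem _ fun k _ => Submodule.smul_mem _ _ ?_
    exact W.smul_mem _ hv
  rw [LinearMap.det_eq_det_mul_det (W.restrictScalars L) e hle]
  have h1 : LinearMap.det (e.restrict hle) = LinearMap.det (∑ k, x k • act L t W k) := by
    refine det_eq_of_equiv ((W.restrictScalarsEquiv L B V).restrictScalars L) fun v => ?_
    rw [LinearMap.sum_apply]
    apply Subtype.ext
    change e (v : V) = _
    rw [heap, AddSubmonoidClass.coe_finsetSum]
    rfl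
  have h2 : LinearMap.det ((W.restrictScalars L).mapQ (W.restrictScalars L) e hle) =
      LinearMap.det (∑ k, x k • act L t (V ⧸ W) k) := by
    refine det_eq_of_equiv (Submodule.Quotient.restrictScalarsEquiv L W) fun v => ?_
    rw [LinearMap.sum_apply]
    obtain ⟨v, rfl⟩ := Submodule.Quotient.mk_surjective _ v
    rw [Submodule.mapQ_apply, Submodule.Quotient.restrictScalarsEquiv_mk,
      Submodule.Quotient.restrictScalarsEquiv_mk, heap, ← Submodule.mkQ_apply, map_sum]
    rfl
  rw [h1, h2]

end alg

end Pool.Agent.TH652.PN
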