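import Pool.Agent.TH652.PN.Rep

/-!
# The determinant polynomial on a simple module, and on every module
-/

set_option autoImplicit false
set_option linter.unusedSectionVars false

open MvPolynomial

namespace Pool.Agent.TH652.PN

universe u v w

/-- A ring homomorphism which does not kill the homogeneous polynomials which are not zero at some
point with at most `d` nonzero coordinates. -/
def Hits {L : Type*} [Field L] {m : ℕ} {R' : Type*} [CommRing R'] (d : ℕ)
    (φ : MvPolynomial (Fin m) L →+* R') : Prop :=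
  ∀ (p : MvPolynomial (Fin m) L) (N : ℕ), p.IsHomogeneous N →
    (∃ (a : Fin m → L) (U : Finset (Fin m)), U.card ≤ d ∧ (∀ k, k ∉ U → a k = 0) ∧
      eval a p ≠ 0) → φ p ≠ 0

section point

variable {L : Type*} [Field L] {m : ℕ}

theorem exists_point [Infinite L] {p : MvPolynomial (Fin m) L} {j d : ℕ} (hp : p.IsHomogeneous j)
    (hj : j ≤ d) (h0 : p ≠ 0) :
    ∃ (a : Fin m → L) (U : Finset (Fin m)), U.card ≤ d ∧ (∀ k, k ∉ U → a k = 0) ∧
      eval a p ≠ 0 := by
  classical
  obtain ⟨μ, hμ⟩ := MvPolynomial.ne_zero_iff.1 h0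
  have hdeg := hp hμ
  have hU : μ.support.card ≤ j := by
    rw [← hdeg, Finsupp.weight_apply, Finsupp.sum, Finset.card_eq_sum_ones]
    refine Finset.sum_le_sum fun k hk => ?_
    have : μ k ≠ 0 := Finsupp.mem_support_iff.1 hk
    simp
    omega
  set f : Fin m → MvPolynomial (Fin m) L := fun k => if k ∈ μ.support then X k else 0 with hf
  have hmon : ∀ (ν : Fin m →₀ ℕ) (c : L), coeff μ (bind₁ f (monomial ν c)) =
      if ν = μ then c else 0 := by
    intro ν c
    rw [bind₁_monomial]
    by_cases hs : ν.support ⊆ μ.support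
    · have h1 : ∏ k ∈ ν.support, f k ^ ν k = ∏ k ∈ ν.support, (X k : MvPolynomial (Fin m) L) ^ ν k :=
        Finset.prod_congr rfl fun k hk => by
          rw [hf]
          simp only [if_pos (hs hk)]
      have h2 : (C c * ∏ k ∈ ν.support, (X k : MvPolynomial (Fin m) L) ^ ν k) = monomial ν c := by
        rw [monomial_eq]
        rfl
      rw [h1, h2, coeff_monomial]
    · have h1 : ∏ k ∈ ν.support, f k ^ ν k = 0 := by
        obtain ⟨k, hk, hk'⟩ := Finset.not_subset.1 hs
        refine Finset.prod_eq_zero hk ?_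
        rw [hf]
        simp only [if_neg hk']
        exact zero_pow (Finsupp.mem_support_iff.1 hk)
      rw [h1, mul_zero, coeff_zero, if_neg]
      rintro rfl
      exact hs subset_rfl
  have hq : coeff μ (bind₁ f p) = coeff μ p := by
    conv_lhs => rw [p.as_sum]
    rw [map_sum, coeff_sum]
    simp only [hmon]
    rw [Finset.sum_ite_eq' , if_pos (mem_support_iff.2 hμ)]
  have hq0 : bind₁ f p ≠ 0 := by
    intro h
    rw [h, coeff_zero] at hq
    exact hμ hq.symm
  obtain ⟨b, hb⟩ : ∃ b : Fin m → L, eval b (bind₁ f p) ≠ 0 := by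
    by_contra hcon
    push Not at hcon
    exact hq0 (MvPolynomial.funext fun b => by rw [hcon b, map_zero])
  refine ⟨fun k => if k ∈ μ.support then b k else 0, μ.support, by omega, ?_, ?_⟩
  · intro k hk
    simp only [if_neg hk]
  · have h1 : eval b (bind₁ f p) = eval (fun k => if k ∈ μ.support then b k else 0) p := by
      rw [← MvPolynomial.coe_aeval_eq_eval b]
      change (aeval b) (bind₁ f p) = _
      rw [aeval_bind₁, ← MvPolynomial.coe_aeval_eq_eval]
      change _ = aeval _ p
      congr 2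
      funext k
      rw [hf]
      by_cases hk : k ∈ μ.support
      · simp only [if_pos hk, aeval_X]
      · simp only [if_neg hk, map_zero]
    rw [← h1]
    exact hb

end point

section alg

variable {L : Type u} [Field L] {m : ℕ} {B : Type v} [Ring B] [Algebra L B]
  {V : Type w} [AddCommGroup V] [Module L V] [Module B V] [IsScalarTower L B V]
  [FiniteDimensional L V]

theorem fd_sub (W : Submodule B V) : FiniteDimensional L W :=
  Module.Finite.equiv ((W.restrictScalarsEquiv L B V).restrictScalars L)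

theorem fd_quot (W : Submodule B V) : FiniteDimensional L (V ⧸ W) :=
  Module.Finite.equiv (Submodule.Quotient.restrictScalarsEquiv L W)

theorem dpoly_ne_zero_of_inj {t : Fin m → B} {i : Fin m} (h : ∀ v : V, t i • v = 0 → v = 0) :
    ∃ (a : Fin m → L) (U : Finset (Fin m)), U.card ≤ 1 ∧ (∀ k, k ∉ U → a k = 0) ∧
      eval a (dpoly L t V) ≠ 0 := by
  classical
  refine ⟨Pi.single i 1, {i}, by simp, ?_, ?_⟩
  · intro k hk
    rw [Finset.mem_singleton] at hk
    exact Pi.single_eq_of_ne hk _
  · rw [eval_dpoly]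
    have h1 : (∑ k, (Pi.single i (1 : L) : Fin m → L) k • act L t V k) = act L t V i := by
      rw [Finset.sum_eq_single i]
      · rw [Pi.single_eq_same, one_smul]
      · intro k _ hk
        rw [Pi.single_eq_of_ne hk, zero_smul]
      · intro hi
        exact absurd (Finset.mem_univ i) hi
    rw [h1]
    have h2 : IsUnit (act L t V i) := by
      rw [LinearMap.isUnit_iff_ker_eq_bot, LinearMap.ker_eq_bot']
      exact h
    exact (h2.map LinearMap.det).ne_zero

/-- first generator acting nontrivially -/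
theorem exists_first {t : Fin m → B} {σ : Fin m → Fin m} {s : ℕ}
    (h : ¬ ∀ i : Fin m, (i : ℕ) < s → ∀ v : V, t (σ i) • v = 0) :
    ∃ i : Fin m, (i : ℕ) < s ∧ (∃ v : V, t (σ i) • v ≠ 0) ∧
      ∀ k : Fin m, (k : ℕ) < i → ∀ v : V, t (σ k) • v = 0 := by
  classical
  push Not at h
  obtain ⟨i, hi, v, hv⟩ := h
  have hex : ∃ n : ℕ, ∃ h : n < m, n < s ∧ ∃ v : V, t (σ ⟨n, h⟩) • v ≠ 0 :=
    ⟨i, i.2, hi, v, hv⟩
  obtain ⟨h1, h2, h3⟩ := Nat.find_spec hex
  refine ⟨⟨Nat.find hex, h1⟩, h2, h3, ?_⟩
  intro k hk v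
  by_contra hcon
  exact Nat.find_min hex hk ⟨k.2, lt_trans hk h2, v, hcon⟩

theorem simple_first {t : Fin m → B} (hB : Algebra.adjoin L (Set.range t) = ⊤)
    {σ : Fin m → Fin m} {s : ℕ} [IsSimpleModule B V]
    (hpoly : ∀ i : Fin m, (i : ℕ) < s → ∀ j, ∃ a : B, t (σ i) * t j - a * t (σ i) ∈
      lower L t σ i)
    (h : ¬ ∀ i : Fin m, (i : ℕ) < s → ∀ v : V, t (σ i) • v = 0) :
    ∃ i : Fin m, ∀ v : V, t i • v = 0 → v = 0 := by
  obtain ⟨i, hi, ⟨v, hv⟩, hlt⟩ := exists_first h
  refine ⟨σ i, ?_⟩
  rcases eq_bot_or_eq_top (kerSub (V := V) hB (hpoly i hi) hlt) with h1 | h1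
  · intro w hw
    have h2 : w ∈ kerSub (V := V) hB (hpoly i hi) hlt := hw
    rw [h1] at h2
    exact (Submodule.mem_bot B).1 h2
  · exfalso
    have h2 : v ∈ kerSub (V := V) hB (hpoly i hi) hlt := by rw [h1]; trivial
    exact hv h2

/-- Schur -/
theorem schur [IsAlgClosed L] [IsSimpleModule B V] {z : B}
    (hz : ∀ (b : B) (v : V), z • b • v = b • z • v) : ∃ γ : L, ∀ v : V, z • v = γ • v := by
  let f : V →ₗ[B] V :=
    { toFun := fun v => z • v
      map_add' := fun a b => smul_add _ _ _
      map_smul' := fun b v => hz b v }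
  obtain ⟨γ, hγ⟩ := (IsSimpleModule.algebraMap_end_bijective_of_isAlgClosed (A := B) (V := V) L).2 f
  refine ⟨γ, fun v => ?_⟩
  have h1 := congrArg (fun g : Module.End B V => g v) hγ
  exact h1.symm

theorem lin_smul (t : Fin m → B) (x : Fin m → L) :
    Algebra.lsmul L L V (lin t x) = ∑ k, x k • act L t V k := by
  rw [lin, map_sum]
  simp only [map_smul]
  rfl

theorem simple_case [IsAlgClosed L] [IsSimpleModule B V] {t : Fin m → B}
    (hB : Algebra.adjoin L (Set.range t) = ⊤) {d : ℕ} (hd : 1 ≤ d) {σ : Fin m → Fin m} {s e : ℕ}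
    {c : ∀ j : ℕ, (Fin j → Fin m) → B} (h : Layers L t d σ s e c) {R' : Type*} [CommRing R']
    [IsDomain R'] (φ : MvPolynomial (Fin m) L →+* R') (hφ : Hits d φ)
    (hne : dpoly L t V ≠ 0) : φ (dpoly L t V) ≠ 0 := by
  classical
  have : Nontrivial V := IsSimpleModule.nontrivial B V
  by_cases h0 : ∀ i : Fin m, (i : ℕ) < s → ∀ v : V, t (σ i) • v = 0
  swap
  · obtain ⟨i, hi⟩ := simple_first (V := V) hB h.poly h0
    obtain ⟨a, U, h1, h2, h3⟩ := dpoly_ne_zero_of_inj (L := L) hi
    exact hφ _ _ (dpoly_homog t) ⟨a, U, h1.trans hd, h2, h3⟩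
  have hlow : ∀ z ∈ lower L t σ s, ∀ v : V, z • v = 0 := fun z hz v => lower_smul h0 hz v
  have hsch : ∀ (j : ℕ) (w : Fin j → Fin m), ∃ γ : L, ∀ v : V, c j w • v = γ • v := by
    intro j w
    refine schur (L := L) (comm_all (L := L) hB fun k v => ?_)
    have h1 := hlow _ (h.central j w k) v
    rw [sub_smul, mul_smul, mul_smul, sub_eq_zero] at h1
    exact h1
  choose γ hγ using hsch
  set Γ : ℕ → MvPolynomial (Fin m) L := fun j => ∑ w : Fin j → Fin m, C (γ j w) * ∏ l, X (w l)
    with hΓ
  have hΓh : ∀ j, (Γ j).IsHomogeneous j := by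
    intro j
    refine IsHomogeneous.sum _ _ _ fun w _ => ?_
    have h1 : (∏ l : Fin j, (X (w l) : MvPolynomial (Fin m) L)).IsHomogeneous
        (∑ _l : Fin j, 1) := IsHomogeneous.prod _ _ _ fun l _ => isHomogeneous_X _ _
    rw [Finset.sum_const, smul_eq_mul, mul_one, Finset.card_univ, Fintype.card_fin] at h1
    have h2 := (isHomogeneous_C (Fin m) (γ j w)).mul h1
    rwa [zero_add] at h2
  have hΓe : ∀ j x, Algebra.lsmul L L V (homog (c j) x) = eval x (Γ j) • (1 : Module.End L V) := by
    intro j x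
    ext v
    rw [homog, map_sum, LinearMap.sum_apply, hΓ]
    simp only [map_sum, map_mul, eval_C, map_prod, eval_X, map_smul]
    rw [LinearMap.smul_apply, Finset.sum_smul]
    refine Finset.sum_congr rfl fun w _ => ?_
    rw [LinearMap.smul_apply]
    change (∏ l, x (w l)) • (c j w • v) = (γ j w * ∏ l, x (w l)) • v
    rw [hγ, ← mul_smul, mul_comm]
  set b := Module.finBasis L V with hb
  set T := symb fun k => LinearMap.toMatrix b b (act L t V k) with hT
  have hTe : ∀ x, T.map (eval x) = LinearMap.toMatrixAlgEquiv b (Algebra.lsmul L L V (lin t x)) := by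
    intro x
    rw [hT, symb_map, lin_smul, map_sum]
    simp only [map_smul]
    rfl
  have hrel : T ^ e + ∑ j ∈ Finset.range e, Γ (j + 1) • T ^ (e - (j + 1)) = 0 := by
    have key : ∀ x, (T ^ e + ∑ j ∈ Finset.range e, Γ (j + 1) • T ^ (e - (j + 1))).map (eval x)
        = 0 := by
      intro x
      have h1 : Algebra.lsmul L L V (lin t x ^ e + ∑ j ∈ Finset.range e,
          homog (c (j + 1)) x * lin t x ^ (e - (j + 1))) = 0 := by
        ext v
        exact hlow _ (h.rel x) v
      have h2 := congrArg (LinearMap.toMatrixAlgEquiv b) h1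
      rw [map_zero, map_add, map_add, map_pow, map_pow, map_sum, map_sum] at h2
      rw [← h2]
      have h3 : ∀ M : Matrix (Fin (Module.finrank L V)) (Fin (Module.finrank L V))
          (MvPolynomial (Fin m) L), M.map (eval x) = (eval x).mapMatrix M := fun M => rfl
      rw [h3, map_add, map_pow, ← h3, hTe, map_sum]
      congr 1
      refine Finset.sum_congr rfl fun j _ => ?_
      have h4 : (T ^ (e - (j + 1))).map (eval x) = (T.map (eval x)) ^ (e - (j + 1)) := by
        rw [h3, map_pow]
        rfl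
      have h5 : LinearMap.toMatrixAlgEquiv b (eval x (Γ (j + 1)) • (1 : Module.End L V)) =
          eval x (Γ (j + 1)) • 1 := by
        rw [map_smul, map_one]
      rw [map_mul (Algebra.lsmul L L V), map_mul (LinearMap.toMatrixAlgEquiv b), hΓe, h5,
        map_pow (Algebra.lsmul L L V), map_pow (LinearMap.toMatrixAlgEquiv b), ← hTe, ← h4,
        smul_one_mul]
      ext i j'
      simp only [RingHom.mapMatrix_apply, Matrix.map_apply, Matrix.smul_apply, smul_eq_mul,
        map_mul]
    ext1 i j
    apply MvPolynomial.funext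
    intro x
    have h1 := congrFun (congrFun (key x) i) j
    rw [Matrix.map_apply, Matrix.zero_apply] at h1
    rw [h1, Matrix.zero_apply, map_zero]
  have hpos : 0 < Module.finrank L V := Module.finrank_pos
  have : Nonempty (Fin (Module.finrank L V)) := ⟨⟨0, hpos⟩⟩
  refine crux T Γ φ e ?_ hne hrel
  intro j hj hj0
  exact hφ _ _ (hΓh j) (exists_point (hΓh j) (hj.trans h.le) hj0)

end alg

end Pool.Agent.TH652.PN
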